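import Pool.Agent.KS6_36.LUC.Field

/-!
# MP_14f819_nt: the exact index of `ℤ[θ]` for the factors of the Lucas polynomials of odd index

Let `n` be odd, let `f` be a monic irreducible factor of the Lucas polynomial `L_n`, and let
`K = ℚ(θ)` with `f(θ) = 0`.  Then `O_K / ℤ[θ]` has order `2 ^ ⌊deg f / 2⌋` and is killed by `2`.
-/

set_option autoImplicit false

namespace Pool.Agent.Results.MP_14f819_nt.ExactIndex

open Polynomial NumberField
open Pool.Agent.KS6_36.LUC

/-- The Lucas polynomials: `L_0 = 2`, `L_1 = x`, `L_n = x L_{n-1} + L_{n-2}`. -/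
noncomputable def L : ℕ → ℤ[X]
  | 0 => 2
  | 1 => X
  | (n + 2) => X * L (n + 1) + L n

/-- `f` is monogenic: for every number field `K = ℚ(θ)` with `f(θ) = 0` the ring `ℤ[θ]` is the
full ring of integers of `K`. -/
def Monogenic (f : ℤ[X]) : Prop :=
  ∀ (K : Type) [Field K] [NumberField K] (θ : 𝓞 K), aeval θ f = 0 →
    Algebra.adjoin ℚ {(θ : K)} = ⊤ → Algebra.adjoin ℤ {θ} = ⊤

/-- The index of the additive group `ℤ[θ]` in the additive group `O_K`. -/
noncomputable def ringIndex {K : Type} [Field K] [NumberField K] (θ : 𝓞 K) : ℕ :=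
  (Algebra.adjoin ℤ {θ}).toSubring.toAddSubgroup.index

theorem L_eq (n : ℕ) : L n = Pool.Agent.R325.LucasFib.lucas n := by
  induction n using Nat.strong_induction_on with
  | _ n ih =>
    rcases n with _ | _ | n
    · rfl
    · rfl
    · rw [L, Pool.Agent.R325.LucasFib.lucas, ih (n + 1) (by omega), ih n (by omega)]

section

variable {K : Type} [Field K] [NumberField K]

theorem aeval_coe (θ : 𝓞 K) (f : ℤ[X]) : aeval (θ : K) f = ((aeval θ f : 𝓞 K) : K) :=
  Polynomial.aeval_algebraMap_apply K θ f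

theorem finrank_eq (f : ℤ[X]) (hf : f.Monic) (hirr : Irreducible f) (θ : 𝓞 K)
    (hθ : aeval θ f = 0) (hK : Algebra.adjoin ℚ {(θ : K)} = ⊤) :
    Module.finrank ℚ K = f.natDegree := by
  have h1 : Irreducible (f.map (algebraMap ℤ ℚ)) :=
    (hf.irreducible_iff_irreducible_map_fraction_map (K := ℚ)).1 hirr
  have h2 : aeval (θ : K) (f.map (algebraMap ℤ ℚ)) = 0 := by
    rw [aeval_map_algebraMap, aeval_coe, hθ]
    rfl
  have h3 : f.map (algebraMap ℤ ℚ) = minpoly ℚ (θ : K) :=
    minpoly.eq_of_irreducible_of_monic h1 h2 (hf.map _)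
  have hint : IsIntegral ℚ (θ : K) := Algebra.IsIntegral.isIntegral _
  have h4 := (Algebra.adjoin.powerBasis hint).finrank
  rw [Algebra.adjoin.powerBasis_dim, ← h3, hf.natDegree_map] at h4
  rw [← h4, hK]
  exact (Subalgebra.topEquiv.toLinearEquiv.finrank_eq).symm

theorem index_formula (n : ℕ) (hn : Odd n) (f : ℤ[X]) (hf : f.Monic) (hirr : Irreducible f)
    (hdvd : f ∣ L n) (θ : 𝓞 K) (hθ : aeval θ f = 0) (hK : Algebra.adjoin ℚ {(θ : K)} = ⊤) :
    ringIndex θ = 2 ^ (f.natDegree / 2) ∧ ∀ x : 𝓞 K, 2 * x ∈ Algebra.adjoin ℤ {θ} := by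
  have hL : aeval (θ : K) (Pool.Agent.R325.LucasFib.lucas n) = 0 := by
    obtain ⟨g, hg⟩ := hdvd
    rw [← L_eq, hg, aeval_coe, map_mul, hθ, zero_mul]
    rfl
  have h := index_field n hn θ hL hK
  rw [finrank_eq f hf hirr θ hθ hK] at h
  exact h

theorem adjoin_eq_top_iff (θ : 𝓞 K) : Algebra.adjoin ℤ {θ} = ⊤ ↔ ringIndex θ = 1 := by
  unfold ringIndex
  rw [AddSubgroup.index_eq_one]
  constructor
  · intro h
    rw [h]
    rfl
  · intro h
    rw [Algebra.eq_top_iff]
    intro x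
    have : x ∈ (Algebra.adjoin ℤ {θ}).toSubring.toAddSubgroup := by
      rw [h]
      exact AddSubgroup.mem_top x
    exact this

end

/-- a number field generated by a root -/
theorem exists_field (f : ℤ[X]) (hf : f.Monic) (hirr : Irreducible f) :
    ∃ (K : Type) (_ : Field K) (_ : NumberField K) (θ : 𝓞 K), aeval θ f = 0 ∧
      Algebra.adjoin ℚ {(θ : K)} = ⊤ := by
  have h1 : Irreducible (f.map (algebraMap ℤ ℚ)) :=
    (hf.irreducible_iff_irreducible_map_fraction_map (K := ℚ)).1 hirr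
  haveI : Fact (Irreducible (f.map (algebraMap ℤ ℚ))) := ⟨h1⟩
  haveI : NumberField (AdjoinRoot (f.map (algebraMap ℤ ℚ))) :=
    { to_charZero := charZero_of_injective_algebraMap
        (algebraMap ℚ (AdjoinRoot (f.map (algebraMap ℤ ℚ)))).injective
      to_finiteDimensional := (AdjoinRoot.powerBasis h1.ne_zero).finite }
  have h2 : aeval (AdjoinRoot.root (f.map (algebraMap ℤ ℚ))) f = 0 := by
    rw [← aeval_map_algebraMap ℚ]
    have h3 := AdjoinRoot.eval₂_root (f.map (algebraMap ℤ ℚ))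
    exact h3
  have hint : IsIntegral ℤ (AdjoinRoot.root (f.map (algebraMap ℤ ℚ))) := ⟨f, hf, h2⟩
  refine ⟨AdjoinRoot (f.map (algebraMap ℤ ℚ)), inferInstance, inferInstance,
    ⟨AdjoinRoot.root (f.map (algebraMap ℤ ℚ)), hint⟩, ?_, ?_⟩
  · apply RingOfIntegers.ext
    rw [← aeval_coe]
    exact h2
  · exact (AdjoinRoot.powerBasis h1.ne_zero).adjoin_gen_eq_top

theorem real_root (n : ℕ) (hn : Odd n) (a : ℤ) (h : aeval ((a : ℤ) : ℂ) (L n) = 0) : a = 0 := by
  rw [L_eq] at h
  obtain ⟨z, hz, hza⟩ := root_form n hn _ h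
  have hn0 : n ≠ 0 := hn.pos.ne'
  have hnorm : ‖z‖ = 1 := by
    have := congrArg norm hz
    rw [norm_pow, norm_one] at this
    exact (pow_eq_one_iff_of_nonneg (norm_nonneg _) hn0).1 this
  have hinv : z⁻¹ = (starRingEnd ℂ) z := by
    rw [Complex.inv_def, Complex.normSq_eq_norm_sq, hnorm]
    simp
  rw [hinv] at hza
  have := congrArg Complex.re hza
  rw [Complex.sub_re, Complex.conj_re, sub_self, Complex.intCast_re] at this
  exact_mod_cast this.symm

theorem monogenic_iff (n : ℕ) (hn : Odd n) (f : ℤ[X]) (hf : f.Monic) (hirr : Irreducible f)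
    (hdvd : f ∣ L n) : Monogenic f ↔ f = X := by
  constructor
  · intro hm
    obtain ⟨K, i1, i2, θ, hθ, hK⟩ := exists_field f hf hirr
    have h1 := (adjoin_eq_top_iff θ).1 (hm K θ hθ hK)
    rw [(index_formula n hn f hf hirr hdvd θ hθ hK).1] at h1
    have h2 : f.natDegree / 2 = 0 := by
      by_contra h3
      have := Nat.one_lt_two_pow h3
      omega
    have h0 : f.natDegree ≠ 0 := by
      intro h0
      exact hirr.not_isUnit ((eq_one_of_monic_natDegree_zero hf h0) ▸ isUnit_one)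
    have hd : f.natDegree = 1 := by omega
    have hX : f = X + C (f.coeff 0) := hf.eq_X_add_C hd
    have hr : aeval (((-f.coeff 0 : ℤ)) : ℂ) (L n) = 0 := by
      obtain ⟨g, hg⟩ := hdvd
      rw [hg, map_mul]
      have : aeval (((-f.coeff 0 : ℤ)) : ℂ) f = 0 := by
        rw [hX]
        simp
      rw [this, zero_mul]
    have := real_root n hn _ hr
    rw [hX, neg_eq_zero.1 this, C_0, add_zero]
  · intro hX K _ _ θ hθ hK
    rw [adjoin_eq_top_iff, (index_formula n hn f hf hirr hdvd θ hθ hK).1, hX, natDegree_X]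
    norm_num

/-- **Main theorem.** Let `n` be odd.
(1) Let `f` be a monic irreducible factor of the Lucas polynomial `L_n` and let `K = ℚ(θ)` be a
number field with `f(θ) = 0`. The index of `ℤ[θ]` in the ring of integers `O_K` is exactly
`2 ^ ⌊deg f / 2⌋`, and `2 O_K ⊆ ℤ[θ]`.
(2) A monic irreducible factor `f` of `L_n` is monogenic if and only if `f = x`.
(3) All monic irreducible factors of `L_n` are monogenic if and only if `n = 1`. -/
theorem result (n : ℕ) (hn : Odd n) :
    (∀ f : ℤ[X], f.Monic → Irreducible f → f ∣ L n →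
      ∀ (K : Type) [Field K] [NumberField K] (θ : 𝓞 K), aeval θ f = 0 →
        Algebra.adjoin ℚ {(θ : K)} = ⊤ →
        ringIndex θ = 2 ^ (f.natDegree / 2) ∧ ∀ x : 𝓞 K, 2 * x ∈ Algebra.adjoin ℤ {θ}) ∧
    (∀ f : ℤ[X], f.Monic → Irreducible f → f ∣ L n → (Monogenic f ↔ f = X)) ∧
    ((∀ f : ℤ[X], f.Monic → Irreducible f → f ∣ L n → Monogenic f) ↔ n = 1) := by
  refine ⟨fun f hf hirr hdvd K _ _ θ hθ hK => index_formula n hn f hf hirr hdvd θ hθ hK,
    fun f hf hirr hdvd => monogenic_iff n hn f hf hirr hdvd, ?_, ?_⟩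
  · intro hall
    by_contra hn1
    have hn0 : n ≠ 0 := hn.pos.ne'
    have hn3 : 3 ≤ n := by
      rcases hn with ⟨k, rfl⟩; omega
    have hprim := Complex.isPrimitiveRoot_exp n hn0
    set ζ := Complex.exp (2 * Real.pi * Complex.I / n) with hζdef
    have hζ : ζ ^ n = 1 := hprim.pow_eq_one
    have hζ0 : ζ ≠ 0 := hprim.ne_zero hn0
    have h0 : ζ - ζ⁻¹ ≠ 0 := by
      intro h
      have h2 : ζ ^ 2 = 1 := by
        have : ζ * (ζ - ζ⁻¹) = 0 := by rw [h, mul_zero]
        rw [mul_sub, mul_inv_cancel₀ hζ0] at this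
        linear_combination this
      have := Nat.le_of_dvd (by norm_num) (hprim.dvd_of_pow_eq_one 2 h2)
      omega
    have hint : IsIntegral ℤ (ζ - ζ⁻¹) := by
      refine IsIntegral.sub ⟨X ^ n - 1, monic_X_pow_sub_C 1 hn0, by simp [hζ]⟩
        ⟨X ^ n - 1, monic_X_pow_sub_C 1 hn0, by simp [hζ]⟩
    have hL : aeval (ζ - ζ⁻¹) (L n) = 0 := by
      rw [L_eq, Pool.Agent.R325.LucasFib.lucas_eval ζ hζ0, hn.neg_pow, inv_pow, hζ]; simp
    have h1 := hall (minpoly ℤ (ζ - ζ⁻¹)) (minpoly.monic hint) (minpoly.irreducible hint)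
      (minpoly.isIntegrallyClosed_dvd hint hL)
    rw [monogenic_iff n hn _ (minpoly.monic hint) (minpoly.irreducible hint)
      (minpoly.isIntegrallyClosed_dvd hint hL)] at h1
    have h5 := minpoly.aeval ℤ (ζ - ζ⁻¹)
    rw [h1, aeval_X] at h5
    exact h0 h5
  · rintro rfl f hf hirr hdvd
    refine (monogenic_iff 1 hn f hf hirr hdvd).2 ?_
    obtain ⟨g, hg⟩ := hdvd
    rw [L] at hg
    rcases irreducible_X.isUnit_or_isUnit hg with h | h
    · exact absurd h hirr.not_isUnit
    · have hg1 : g.Monic := by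
        have hXm : (f * g).Monic := hg ▸ monic_X
        exact hf.of_mul_monic_left hXm
      rw [hg, hg1.eq_one_of_isUnit h, mul_one]

end Pool.Agent.Results.MP_14f819_nt.ExactIndex
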